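import Mathlib

/-!
# The numbers of the cutting lemma
-/

namespace Pool.Agent.Helper97.BT

/-- E6: the numbers for E5. -/
theorem beta_le {N q w d : ℕ} {ε θ : ℝ} (h0 : 0 < ε) (h1 : ε ≤ 1) (hθ0 : 0 < θ) (hθ1 : θ ≤ 1) (hqN : q ≤ N)
    (hq : (10 ^ 6 : ℝ) * 2 ^ w * (w + 1) * (d + 1 / θ) ^ 2 / (ε ^ 2 * θ) ≤ q) :
    ∃ E : ℕ, 0 < E ∧ E ≤ N ∧ (2 ^ d + 1) ^ 2 * (1 - (E : ℝ) / N) ^ q +
        8 * 2 ^ w * ((w + 1) * q + 1) * E ^ 2 / (ε * N) ^ 2 + 16 / (ε * q) ≤ θ := by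
  set u : ℝ := d + 1 / θ with hu
  have hθi : 1 ≤ 1 / θ := (one_le_div hθ0).2 hθ1
  have hd : (0 : ℝ) ≤ d := Nat.cast_nonneg _
  have hu1 : 1 ≤ u := by linarith
  have hw0 : (0 : ℝ) ≤ w := Nat.cast_nonneg _
  have hw1 : (1 : ℝ) ≤ 2 ^ w := one_le_pow₀ (by norm_num)
  have hK : (1 : ℝ) ≤ 2 ^ w * (w + 1) := by nlinarith
  set K : ℝ := 2 ^ w * (w + 1) with hKd
  have hq' : 10 ^ 6 * K * u ^ 2 / (ε ^ 2 * θ) ≤ q := by
    refine le_trans (le_of_eq ?_) hq
    rw [hKd]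
    ring
  have hεθ : 0 < ε ^ 2 * θ := by positivity
  rw [div_le_iff₀ hεθ] at hq'
  have hε2 : ε ^ 2 ≤ 1 := pow_le_one₀ h0.le h1
  have hεθ1 : ε ^ 2 * θ ≤ 1 := by nlinarith
  have hqR : (10 : ℝ) ^ 6 * K * u ^ 2 ≤ q := by
    have : (0 : ℝ) ≤ q := Nat.cast_nonneg _
    nlinarith
  have hu2 : u ≤ u ^ 2 := by nlinarith
  have hKu : u ≤ K * u ^ 2 := by nlinarith
  have hqu : 10 ^ 6 * u ≤ q := by nlinarith
  have hq0 : (0 : ℝ) < q := by linarith
  have hNq : (q : ℝ) ≤ N := by exact_mod_cast hqN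
  have hN0 : (0 : ℝ) < N := by linarith
  set Λ : ℝ := 5 * u with hΛ
  have hx1 : 1 ≤ N * Λ / q := by
    rw [le_div_iff₀ hq0]
    nlinarith
  refine ⟨⌈N * Λ / q⌉₊, Nat.ceil_pos.2 (by linarith), ?_, ?_⟩
  · refine Nat.ceil_le.2 ?_
    rw [div_le_iff₀ hq0]
    nlinarith
  · set E : ℕ := ⌈N * Λ / q⌉₊ with hE
    have hE1 : N * Λ / q ≤ E := Nat.le_ceil _
    have hE2 : (E : ℝ) ≤ 2 * (N * Λ / q) := by
      have := (Nat.ceil_lt_add_one (show 0 ≤ N * Λ / q by linarith)).le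
      linarith
    have hE3 : (E : ℝ) ≤ N := by
      refine hE2.trans ?_
      rw [mul_div_assoc', div_le_iff₀ hq0]
      nlinarith
    -- the first term
    have p1 : (2 ^ d + 1) ^ 2 * (1 - (E : ℝ) / N) ^ q ≤ θ / 3 := by
      have a0 : 0 ≤ 1 - (E : ℝ) / N := by
        rw [sub_nonneg, div_le_one hN0]
        exact hE3
      have a1 : (1 - (E : ℝ) / N) ^ q ≤ Real.exp (-Λ) := by
        calc (1 - (E : ℝ) / N) ^ q ≤ (Real.exp (-((E : ℝ) / N))) ^ q :=
              pow_le_pow_left₀ a0 (Real.one_sub_le_exp_neg _) q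
          _ = Real.exp (-(q * ((E : ℝ) / N))) := by
              rw [← Real.exp_nat_mul]
              congr 1
              ring
          _ ≤ Real.exp (-Λ) := by
              refine Real.exp_le_exp.2 (neg_le_neg ?_)
              have : Λ = q * ((N * Λ / q) / N) := by
                field_simp
              rw [this]
              exact mul_le_mul_of_nonneg_left (div_le_div_of_nonneg_right hE1 hN0.le) hq0.le
      have a2 : ((2 : ℝ) ^ d + 1) ^ 2 ≤ Real.exp (2 * (d + 1)) := by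
        have b1 : (2 : ℝ) ≤ Real.exp 1 := by linarith [Real.exp_one_gt_d9]
        have b2 : Real.exp (2 * (d + 1)) = (Real.exp 1 ^ (d + 1)) ^ 2 := by
          rw [← pow_mul, ← Real.exp_nat_mul]
          congr 1
          push_cast
          ring
        have b3 : (2 : ℝ) ^ d + 1 ≤ Real.exp 1 ^ (d + 1) := by
          have : (1 : ℝ) ≤ 2 ^ d := one_le_pow₀ (by norm_num)
          calc (2 : ℝ) ^ d + 1 ≤ 2 ^ (d + 1) := by
                rw [pow_succ]
                linarith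
            _ ≤ _ := pow_le_pow_left₀ (by norm_num) b1 _
        rw [b2]
        exact pow_le_pow_left₀ (by positivity) b3 2
      have a3 : 3 / θ ≤ Real.exp (3 / θ) := by
        have := Real.add_one_le_exp (3 / θ)
        linarith
      have a4 : Real.exp (2 * (d + 1)) * Real.exp (3 / θ) ≤ Real.exp Λ := by
        rw [← Real.exp_add]
        refine Real.exp_le_exp.2 ?_
        have : 3 / θ = 3 * (1 / θ) := by ring
        rw [this, hΛ, hu]
        linarith
      have a5 : ((2 : ℝ) ^ d + 1) ^ 2 * (3 / θ) ≤ Real.exp Λ :=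
        (mul_le_mul a2 a3 (by positivity) (by positivity)).trans a4
      calc (2 ^ d + 1) ^ 2 * (1 - (E : ℝ) / N) ^ q ≤ (2 ^ d + 1) ^ 2 * Real.exp (-Λ) :=
            mul_le_mul_of_nonneg_left a1 (by positivity)
        _ ≤ θ / 3 := by
            rw [Real.exp_neg, ← div_eq_mul_inv, div_le_iff₀ (Real.exp_pos _)]
            have := mul_le_mul_of_nonneg_left a5 (show 0 ≤ θ / 3 by positivity)
            calc ((2 : ℝ) ^ d + 1) ^ 2 = θ / 3 * (((2 : ℝ) ^ d + 1) ^ 2 * (3 / θ)) := by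
                  field_simp
              _ ≤ _ := this
    -- the second term
    have p2 : 8 * 2 ^ w * ((w + 1) * q + 1) * (E : ℝ) ^ 2 / (ε * N) ^ 2 ≤ θ / 3 := by
      have a1 : (E : ℝ) ^ 2 ≤ (2 * (N * Λ / q)) ^ 2 := pow_le_pow_left₀ (Nat.cast_nonneg _) hE2 2
      have a2 : ((w : ℝ) + 1) * q + 1 ≤ 2 * ((w + 1) * q) := by nlinarith
      have a3 : 8 * 2 ^ w * (((w : ℝ) + 1) * q + 1) * (E : ℝ) ^ 2 ≤
          8 * 2 ^ w * (2 * ((w + 1) * q)) * (2 * (N * Λ / q)) ^ 2 := by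
        refine mul_le_mul (mul_le_mul_of_nonneg_left a2 (by positivity)) a1 (by positivity) (by positivity)
      rw [div_le_iff₀ (by positivity)]
      refine a3.trans ?_
      have a4 : 8 * 2 ^ w * (2 * (((w : ℝ) + 1) * q)) * (2 * (N * Λ / q)) ^ 2 =
          1600 * (K * u ^ 2) * N ^ 2 / q := by
        rw [hKd, hΛ]
        field_simp
        ring
      rw [a4, div_le_iff₀ hq0]
      have a5 : 4800 * (K * u ^ 2) ≤ q * (ε ^ 2 * θ) := by
        have : (0 : ℝ) ≤ K * u ^ 2 := by positivity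
        linarith
      have a6 : (0 : ℝ) ≤ N ^ 2 := by positivity
      nlinarith
    -- the third term
    have p3 : 16 / (ε * q) ≤ θ / 3 := by
      rw [div_le_iff₀ (by positivity)]
      have a1 : (48 : ℝ) ≤ q * (ε ^ 2 * θ) := by nlinarith
      have a2 : q * (ε ^ 2 * θ) ≤ q * (ε * θ) := by
        refine mul_le_mul_of_nonneg_left (mul_le_mul_of_nonneg_right ?_ hθ0.le) hq0.le
        nlinarith
      linarith
    linarith

end Pool.Agent.Helper97.BT
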