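import Pool.Agent.Helper96.BT.Defs

/-!
# The numbers of BT: the error of the first part
-/

namespace Pool.Agent.Helper97.BT

open Pool.Agent.Helper96.BT

/-- The part of a block which is left in a hole. -/
theorem eta_le {s k L h : ℕ} (hs : 2 ^ 60 ≤ s) (hk : s ^ 2000 ≤ k) (hL : L = k ^ 60) (hh : h = L / (20 * s ^ 2)) :
    0 < h ∧ 1 / ((h : ℝ) / L) ≤ 40 * s ^ 2 := by
  have hs0 : 0 < s := lt_of_lt_of_le (by norm_num) hs
  have h1 : 40 * s ^ 2 ≤ L := by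
    have a1 : 40 * s ^ 2 ≤ s ^ 3 := by
      have : 40 ≤ s := le_trans (by norm_num) hs
      calc 40 * s ^ 2 ≤ s * s ^ 2 := Nat.mul_le_mul_right _ this
        _ = s ^ 3 := by ring
    have a2 : s ^ 3 ≤ s ^ 2000 := Nat.pow_le_pow_right hs0 (by norm_num)
    have a3 : k ≤ k ^ 60 := Nat.le_self_pow (by norm_num) k
    rw [hL]
    exact a1.trans (a2.trans (hk.trans a3))
  have h20 : 0 < 20 * s ^ 2 := by positivity
  have h2 : 2 ≤ h := by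
    rw [hh, Nat.le_div_iff_mul_le h20]
    linarith
  have h3 : L < (20 * s ^ 2) * (h + 1) := by
    rw [hh]
    exact Nat.lt_mul_div_succ L h20
  have h4 : (L : ℝ) ≤ (20 * s ^ 2) * (h + 1) := by exact_mod_cast h3.le
  have h5 : (2 : ℝ) ≤ h := by exact_mod_cast h2
  have hsR : (0 : ℝ) ≤ (s : ℝ) ^ 2 := by positivity
  refine ⟨by omega, ?_⟩
  rw [one_div_div, div_le_iff₀ (by linarith)]
  nlinarith

/-- The error of the first part. -/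
theorem numA {s k w q h e S L Q : ℕ} {θ : ℝ} (hs : 2 ^ 60 ≤ s) (hk : s ^ 2000 ≤ k)
    (hw : 2 ^ w ≤ s) (hθ : 1 / (s : ℝ) ≤ θ) (hL : L = k ^ 60)
    (hq : q = s ^ 8) (hh : h = L / (20 * s ^ 2))
    (he : e = s ^ 13 / (20 * s ^ 2)) (hS : S ≤ 2 ^ s) (hQ : Q = (w + 1) * q + 1) :
    errA (8 * s ^ 20 * 2) 15 (s ^ 13) (s ^ 20) (2 * s) S Q s e (1 / (5 * s ^ 2)) ((h : ℝ) / L) ≤ θ / 16 := by
  have hs0 : 0 < s := lt_of_lt_of_le (by norm_num) hs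
  have hsR : (0 : ℝ) < s := by exact_mod_cast hs0
  have hsB : (2 : ℝ) ^ 60 ≤ s := by exact_mod_cast hs
  obtain ⟨hh0, hη⟩ := eta_le hs hk hL hh
  have hη0 : (0 : ℝ) ≤ 1 / ((h : ℝ) / L) := by positivity
  set a : ℕ := s ^ 20 with ha
  -- the types
  have hw1 : w + 1 ≤ s := (Nat.succ_le_of_lt (Nat.lt_two_pow_self)).trans hw
  have hQ1 : Q ≤ s ^ 10 := by
    have b1 : (w + 1) * q ≤ s ^ 9 := by
      rw [hq]
      calc (w + 1) * s ^ 8 ≤ s * s ^ 8 := Nat.mul_le_mul_right _ hw1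
        _ = s ^ 9 := by ring
    have b2 : 1 ≤ s ^ 9 := Nat.one_le_pow _ _ hs0
    have b3 : 2 * s ^ 9 ≤ s ^ 10 := by
      calc 2 * s ^ 9 ≤ s * s ^ 9 := Nat.mul_le_mul_right _ (le_trans (by norm_num) hs)
        _ = s ^ 10 := by ring
    omega
  have hexp : (3 * s + 2) * (2 * Q) ≤ a := by
    have c1 : (3 * s + 2) * 2 ≤ s ^ 2 := by
      have : 10 ≤ s := le_trans (by norm_num) hs
      nlinarith
    calc (3 * s + 2) * (2 * Q) = ((3 * s + 2) * 2) * Q := by ring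
      _ ≤ s ^ 2 * s ^ 10 := Nat.mul_le_mul c1 hQ1
      _ = s ^ 12 := by ring
      _ ≤ a := Nat.pow_le_pow_right hs0 (by norm_num)
  have t1 : ((S : ℝ) ^ 2 * (2 ^ s + 1) + 1) ^ (2 * Q) ≤ 2 ^ a := by
    have d1 : (S : ℝ) ≤ 2 ^ s := by exact_mod_cast hS
    have d2 : (1 : ℝ) ≤ 2 ^ s := one_le_pow₀ (by norm_num)
    have d3 : (S : ℝ) ^ 2 * (2 ^ s + 1) + 1 ≤ 2 ^ (3 * s + 2) := by
      have e1 : (S : ℝ) ^ 2 ≤ (2 ^ s) ^ 2 := pow_le_pow_left₀ (Nat.cast_nonneg _) d1 2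
      have e2 : (2 : ℝ) ^ (3 * s + 2) = (2 ^ s) ^ 2 * (2 ^ s) * 4 := by
        rw [← pow_mul, ← pow_add]
        rw [show (4 : ℝ) = 2 ^ 2 by norm_num, ← pow_add]
        congr 1
        ring
      rw [e2]
      have e3 : (S : ℝ) ^ 2 * (2 ^ s + 1) ≤ (2 ^ s) ^ 2 * (2 ^ s + 1) :=
        mul_le_mul_of_nonneg_right e1 (by positivity)
      have e4 : (1 : ℝ) ≤ (2 ^ s) ^ 2 := one_le_pow₀ d2
      have e5 : (1 : ℝ) ≤ (2 ^ s) ^ 2 * 2 ^ s := by nlinarith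
      nlinarith
    calc ((S : ℝ) ^ 2 * (2 ^ s + 1) + 1) ^ (2 * Q) ≤ (2 ^ (3 * s + 2)) ^ (2 * Q) :=
          pow_le_pow_left₀ (by positivity) d3 _
      _ = 2 ^ ((3 * s + 2) * (2 * Q)) := by rw [← pow_mul]
      _ ≤ 2 ^ a := pow_le_pow_right₀ (by norm_num) hexp
  have t2 : (((8 * a * 2).choose a : ℕ) : ℝ) ≤ (2 ^ 16) ^ a := by
    have : (8 * a * 2).choose a ≤ 2 ^ (8 * a * 2) := Nat.choose_le_two_pow _ _
    calc (((8 * a * 2).choose a : ℕ) : ℝ) ≤ ((2 ^ (8 * a * 2) : ℕ) : ℝ) := by exact_mod_cast this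
      _ = (2 ^ 16) ^ a := by
        push_cast
        rw [← pow_mul]
        congr 1
        ring
  have t3 : ((15 : ℕ) : ℝ) * (((s ^ 13 : ℕ) : ℝ) / (e + 1)) ≤ 300 * s ^ 2 := by
    have h20 : 0 < 20 * s ^ 2 := by positivity
    have f1 : s ^ 13 < (20 * s ^ 2) * (e + 1) := by
      rw [he]
      exact Nat.lt_mul_div_succ _ h20
    have f2 : ((s ^ 13 : ℕ) : ℝ) ≤ (20 * s ^ 2) * (e + 1) := by exact_mod_cast f1.le
    have f3 : ((s ^ 13 : ℕ) : ℝ) / (e + 1) ≤ 20 * s ^ 2 := by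
      rw [div_le_iff₀ (by positivity)]
      exact f2
    push_cast at f3 ⊢
    linarith
  have t4 : (1 / ((h : ℝ) / L)) ^ 2 * (4 * (((s ^ 13 : ℕ) : ℝ) + 2) / (((s ^ 13 : ℕ) : ℝ) * (1 / (5 * s ^ 2))) ^ 2) ≤
      320000 / s ^ 5 := by
    have g1 : (1 / ((h : ℝ) / L)) ^ 2 ≤ (40 * s ^ 2) ^ 2 := pow_le_pow_left₀ hη0 hη 2
    have g2 : 4 * (((s ^ 13 : ℕ) : ℝ) + 2) / (((s ^ 13 : ℕ) : ℝ) * (1 / (5 * s ^ 2))) ^ 2 ≤ 200 / s ^ 9 := by
      push_cast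
      rw [div_le_div_iff₀ (by positivity) (by positivity)]
      have g3 : ((s : ℝ) ^ 13 * (1 / (5 * s ^ 2))) ^ 2 = s ^ 22 / 25 := by
        field_simp
        ring
      rw [g3]
      have g4 : (2 : ℝ) ≤ s ^ 13 := le_trans (by norm_num) (pow_le_pow_left₀ (by norm_num) hsB 13)
      have g5 : 4 * ((s : ℝ) ^ 13 + 2) * s ^ 9 ≤ 4 * (s ^ 13 + s ^ 13) * s ^ 9 := by
        have : (0 : ℝ) ≤ s ^ 9 := by positivity
        nlinarith
      refine g5.trans (le_of_eq ?_)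
      ring
    calc _ ≤ (40 * (s : ℝ) ^ 2) ^ 2 * (200 / s ^ 9) := mul_le_mul g1 g2 (by positivity) (by positivity)
      _ = 320000 / s ^ 5 := by
        field_simp
        ring
  have t5 : (2 : ℝ) * s * (1 / 2 ^ 8) ^ a ≤ θ / 16 := by
    have i1 : (s : ℝ) ≤ 2 ^ s := by exact_mod_cast (Nat.lt_two_pow_self (n := s)).le
    have i2 : 5 + 2 * s ≤ 8 * a := by
      have : s ≤ a := Nat.le_self_pow (by norm_num) s
      have : 5 ≤ s := le_trans (by norm_num) hs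
      omega
    have i3 : (32 : ℝ) * s ^ 2 ≤ (2 ^ 8) ^ a := by
      calc (32 : ℝ) * s ^ 2 ≤ 2 ^ 5 * (2 ^ s) ^ 2 := by
            have : (s : ℝ) ^ 2 ≤ (2 ^ s) ^ 2 := pow_le_pow_left₀ hsR.le i1 2
            nlinarith
        _ = 2 ^ (5 + 2 * s) := by
            rw [← pow_mul, ← pow_add]
            congr 1
            ring
        _ ≤ 2 ^ (8 * a) := pow_le_pow_right₀ (by norm_num) i2
        _ = (2 ^ 8) ^ a := by rw [← pow_mul]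
    have i4 : (2 : ℝ) * s * (1 / 2 ^ 8) ^ a ≤ 1 / s / 16 := by
      rw [one_div_pow, mul_one_div, div_div, div_le_div_iff₀ (by positivity) (by positivity)]
      nlinarith
    linarith
  refine le_trans ?_ t5
  unfold errA
  have k1 : (0 : ℝ) ≤ ((15 : ℕ) : ℝ) * (((s ^ 13 : ℕ) : ℝ) / (e + 1)) := by positivity
  have u1 : (((15 : ℕ) : ℝ) * (((s ^ 13 : ℕ) : ℝ) / (e + 1))) ^ (2 * a) ≤ ((300 * (s : ℝ) ^ 2) ^ 2) ^ a := by
    rw [← pow_mul]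
    exact pow_le_pow_left₀ k1 t3 _
  have u2 : ((1 / ((h : ℝ) / L)) ^ 2 * (4 * (((s ^ 13 : ℕ) : ℝ) + 2) /
      (((s ^ 13 : ℕ) : ℝ) * (1 / (5 * s ^ 2))) ^ 2)) ^ a ≤ (320000 / s ^ 5) ^ a :=
    pow_le_pow_left₀ (by positivity) t4 _
  have u3 : (2 : ℝ) * (2 ^ 16) * ((300 * (s : ℝ) ^ 2) ^ 2) * (320000 / s ^ 5) ≤ 1 / 2 ^ 8 := by
    have : (2 : ℝ) * (2 ^ 16) * ((300 * (s : ℝ) ^ 2) ^ 2) * (320000 / s ^ 5) = 2 ^ 17 * 90000 * 320000 / s := by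
      field_simp
      ring
    rw [this, div_le_div_iff₀ hsR (by norm_num)]
    refine le_trans ?_ (by linarith : (1 : ℝ) * 2 ^ 60 ≤ 1 * s)
    norm_num
  calc ((2 * s : ℕ) : ℝ) * ((S : ℝ) ^ 2 * (2 ^ s + 1) + 1) ^ (2 * Q) * ((8 * a * 2).choose a : ℕ) *
        (((15 : ℕ) : ℝ) * (((s ^ 13 : ℕ) : ℝ) / (e + 1))) ^ (2 * a) *
        ((1 / ((h : ℝ) / L)) ^ 2 * (4 * (((s ^ 13 : ℕ) : ℝ) + 2) /
          (((s ^ 13 : ℕ) : ℝ) * (1 / (5 * s ^ 2))) ^ 2)) ^ a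
      ≤ ((2 * s : ℕ) : ℝ) * 2 ^ a * (2 ^ 16) ^ a * ((300 * (s : ℝ) ^ 2) ^ 2) ^ a * (320000 / s ^ 5) ^ a := by
        refine mul_le_mul (mul_le_mul (mul_le_mul (mul_le_mul_of_nonneg_left t1 (by positivity)) t2
          (by positivity) (by positivity)) u1 (by positivity) (by positivity)) u2 (by positivity) (by positivity)
    _ = 2 * s * (2 * (2 ^ 16) * ((300 * (s : ℝ) ^ 2) ^ 2) * (320000 / s ^ 5)) ^ a := by
        have key : ∀ x b c d f : ℝ, x * b ^ a * c ^ a * d ^ a * f ^ a = x * (b * c * d * f) ^ a := by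
          intro x b c d f
          rw [mul_pow, mul_pow, mul_pow]
          ring
        rw [key]
        push_cast
        rfl
    _ ≤ 2 * s * (1 / 2 ^ 8) ^ a :=
        mul_le_mul_of_nonneg_left (pow_le_pow_left₀ (by positivity) u3 _) (by positivity)

end Pool.Agent.Helper97.BT
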