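import Mathlib

/-!
# The numbers of BT: the two terms with `k`
-/

namespace Pool.Agent.Helper97.BT

/-- The two terms with `k`. -/
theorem numB {s k : ℕ} {θ : ℝ} (hs : 2 ^ 60 ≤ s) (hk : s ^ 2000 ≤ k) (hθ : 1 / (s : ℝ) ≤ θ) :
    ((2 * s + 1 : ℝ) * ((8 * s ^ 20 * 2 : ℕ) * (s ^ 13 : ℕ))) ^ 2 / k + 2 * 2 ^ 4 / Real.sqrt k ≤ θ / 16 := by
  have hs0 : 0 < s := lt_of_lt_of_le (by norm_num) hs
  have hsR : (0 : ℝ) < s := by exact_mod_cast hs0
  have hsB : (2 : ℝ) ^ 60 ≤ s := by exact_mod_cast hs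
  have hs1 : (1 : ℝ) ≤ s := le_trans (by norm_num) hsB
  have hk1 : (s : ℝ) ^ 72 ≤ k := by
    have h1 : s ^ 72 ≤ s ^ 2000 := Nat.pow_le_pow_right hs0 (by norm_num)
    exact_mod_cast h1.trans hk
  have hk2 : ((s : ℝ) ^ 4) ^ 2 ≤ k := by
    refine le_trans ?_ hk1
    rw [← pow_mul]
    exact pow_le_pow_right₀ hs1 (by norm_num)
  have hk0 : (0 : ℝ) < k := lt_of_lt_of_le (by positivity) hk1
  have hsq : (s : ℝ) ^ 4 ≤ Real.sqrt k := Real.le_sqrt_of_sq_le hk2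
  have hs3 : (2 : ℝ) ^ 60 ≤ s ^ 3 := hsB.trans (le_self_pow₀ hs1 (by norm_num))
  have t1 : ((2 * s + 1 : ℝ) * ((8 * s ^ 20 * 2 : ℕ) * (s ^ 13 : ℕ))) ^ 2 / k ≤ 1 / s / 32 := by
    have a1 : (2 * s + 1 : ℝ) * ((8 * s ^ 20 * 2 : ℕ) * (s ^ 13 : ℕ)) ≤ 48 * s ^ 34 := by
      push_cast
      have : (0 : ℝ) ≤ s ^ 33 := by positivity
      have e1 : (2 * s + 1 : ℝ) * (8 * s ^ 20 * 2 * s ^ 13) = (2 * s + 1) * (16 * s ^ 33) := by ring
      rw [e1]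
      have e2 : (48 : ℝ) * s ^ 34 = (3 * s) * (16 * s ^ 33) := by ring
      rw [e2]
      exact mul_le_mul_of_nonneg_right (by linarith) (by positivity)
    have a2 : ((2 * s + 1 : ℝ) * ((8 * s ^ 20 * 2 : ℕ) * (s ^ 13 : ℕ))) ^ 2 ≤ (48 * s ^ 34) ^ 2 :=
      pow_le_pow_left₀ (by positivity) a1 2
    calc _ ≤ (48 * (s : ℝ) ^ 34) ^ 2 / s ^ 72 := div_le_div₀ (by positivity) a2 (by positivity) hk1
      _ = 2304 / s ^ 4 := by
        field_simp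
        ring
      _ ≤ 1 / s / 32 := by
        rw [div_div, div_le_div_iff₀ (by positivity) (by positivity)]
        have : (s : ℝ) ^ 4 = s * s ^ 3 := by ring
        rw [this]
        nlinarith
  have t2 : 2 * 2 ^ 4 / Real.sqrt k ≤ 1 / s / 32 := by
    calc 2 * 2 ^ 4 / Real.sqrt k ≤ 2 * 2 ^ 4 / (s : ℝ) ^ 4 :=
          div_le_div_of_nonneg_left (by norm_num) (by positivity) hsq
      _ ≤ 1 / s / 32 := by
        rw [div_div, div_le_div_iff₀ (by positivity) (by positivity)]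
        have : (s : ℝ) ^ 4 = s * s ^ 3 := by ring
        rw [this]
        nlinarith
  linarith

end Pool.Agent.Helper97.BT
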