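import Mathlib

/-!
# A second moment lemma

Random elements `l₁`, `l₂` of two finite groups move letters `β u t = x u t + φ u t l₁ + ψ u t l₂`; the sets `V₁`, `V₂`
depend on `l₂` and on `l₁` only. Then the part of `V₁ ∩ V₂` over the letters of a node `u` is seldom much smaller than
its mean for all nodes `u` at the same time.
-/

namespace Pool.Agent.Helper97.BT

open Finset

section bessel

variable {Λ : Type*} [AddCommGroup Λ] [Fintype Λ]

/-- The Parseval identity. -/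
theorem parseval (G : Λ → ℂ) :
    ∑ χ : AddChar Λ ℂ, ‖∑ l, G l * χ l‖ ^ 2 = Fintype.card Λ * ∑ l, ‖G l‖ ^ 2 := by
  classical
  have key : ∑ χ : AddChar Λ ℂ, ((‖∑ l, G l * χ l‖ ^ 2 : ℝ) : ℂ) =
      ((Fintype.card Λ * ∑ l, ‖G l‖ ^ 2 : ℝ) : ℂ) := by
    have h1 : ∀ χ : AddChar Λ ℂ, ((‖∑ l, G l * χ l‖ ^ 2 : ℝ) : ℂ) =
        ∑ l, ∑ l', G l * (starRingEnd ℂ) (G l') * χ (l - l') := by
      intro χ
      have h2 : ((‖∑ l, G l * χ l‖ ^ 2 : ℝ) : ℂ) = (∑ l, G l * χ l) * (starRingEnd ℂ) (∑ l, G l * χ l) := by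
        rw [Complex.mul_conj, Complex.normSq_eq_norm_sq]
      rw [h2, map_sum, sum_mul_sum]
      refine sum_congr rfl fun l _ => sum_congr rfl fun l' _ => ?_
      rw [map_mul, sub_eq_add_neg, AddChar.map_add_eq_mul, AddChar.map_neg_eq_conj]
      ring
    rw [sum_congr rfl fun χ _ => h1 χ, sum_comm]
    have h3 : ∀ l : Λ, ∑ χ : AddChar Λ ℂ, ∑ l', G l * (starRingEnd ℂ) (G l') * χ (l - l') =
        Fintype.card Λ * ((‖G l‖ ^ 2 : ℝ) : ℂ) := by
      intro l
      rw [sum_comm, sum_congr rfl fun l' _ => (mul_sum _ _ _).symm,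
        sum_congr rfl fun l' _ => by rw [AddChar.sum_apply_eq_ite], sum_eq_single l]
      · rw [if_pos (sub_self l), Complex.mul_conj, Complex.normSq_eq_norm_sq]
        ring
      · intro l' _ hl'
        rw [if_neg (sub_ne_zero.2 (Ne.symm hl')), mul_zero]
      · simp
    rw [sum_congr rfl fun l _ => h3 l]
    push_cast
    rw [mul_sum]
  exact_mod_cast key

/-- The Bessel inequality. -/
theorem bessel {ι : Type*} (s : Finset ι) (Φ : ι → AddChar Λ ℂ) (hΦ : Set.InjOn Φ s) (G : Λ → ℂ) :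
    ∑ i ∈ s, ‖∑ l, G l * Φ i l‖ ^ 2 ≤ Fintype.card Λ * ∑ l, ‖G l‖ ^ 2 := by
  classical
  rw [← parseval, ← sum_image (f := fun χ : AddChar Λ ℂ => ‖∑ l, G l * χ l‖ ^ 2) hΦ]
  exact sum_le_sum_of_subset_of_nonneg (subset_univ _) fun _ _ _ => by positivity

end bessel

section idx

/-- Two letters and two characters. -/
abbrev Idx (T K : Type*) [AddCommGroup K] := (T × T) × (AddChar K ℂ × AddChar K ℂ)

theorem pair_eq {T K : Type*} [LinearOrder T] [AddCommGroup K] {i j : Idx T K} (hi : i.1.1 < i.1.2)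
    (hi1 : i.2.1 ≠ 0) (hi2 : i.2.2 ≠ 0) (hj : j.1.1 < j.1.2) (hj1 : j.2.1 ≠ 0) (hj2 : j.2.2 ≠ 0)
    (H : ∀ z : T → K, i.2.1 (z i.1.1) * i.2.2 (z i.1.2) = j.2.1 (z j.1.1) * j.2.2 (z j.1.2)) : i = j := by
  obtain ⟨⟨t, t'⟩, ⟨χ, χ'⟩⟩ := i
  obtain ⟨⟨τ, τ'⟩, ⟨η, η'⟩⟩ := j
  simp only at hi hi1 hi2 hj hj1 hj2 H
  obtain ⟨a, ha⟩ := AddChar.ne_zero_iff.1 hi1
  obtain ⟨a', ha'⟩ := AddChar.ne_zero_iff.1 hi2
  have m1 : τ = t ∨ τ' = t := by
    by_contra hn
    push Not at hn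
    have := H (fun s => if s = t then a else 0)
    simp only [if_true, if_neg hn.1, if_neg hn.2, if_neg hi.ne', AddChar.map_zero_eq_one, mul_one] at this
    exact ha this
  have m2 : τ = t' ∨ τ' = t' := by
    by_contra hn
    push Not at hn
    have := H (fun s => if s = t' then a' else 0)
    simp only [if_true, if_neg hn.1, if_neg hn.2, if_neg hi.ne, AddChar.map_zero_eq_one, mul_one, one_mul] at this
    exact ha' this
  have e1 : τ = t := by
    rcases m1 with h | h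
    · exact h
    · rcases m2 with h' | h'
      · rw [h, h'] at hj
        exact absurd hj (not_lt_of_gt hi)
      · exact absurd (h.symm.trans h') hi.ne
  have e2 : τ' = t' := by
    rcases m2 with h | h
    · exact absurd (e1.symm.trans h) hi.ne
    · exact h
  subst e1 e2
  have f1 : χ = η := by
    ext b
    have := H (fun s => if s = τ then b else 0)
    simpa only [if_true, if_neg hi.ne', AddChar.map_zero_eq_one, mul_one] using this
  have f2 : χ' = η' := by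
    ext b
    have := H (fun s => if s = τ' then b else 0)
    simpa only [if_true, if_neg hi.ne, AddChar.map_zero_eq_one, mul_one, one_mul] using this
  rw [f1, f2]

variable {A T K Λ : Type*} [Fintype A] [DecidableEq A] [Fintype T] [LinearOrder T] [AddCommGroup K] [Fintype K]
  [AddCommGroup Λ]

open Classical in
/-- The pairs of different letters, with non-trivial characters. -/
noncomputable def idx (T K : Type*) [Fintype T] [LinearOrder T] [AddCommGroup K] [Fintype K] : Finset (Idx T K) :=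
  univ.filter fun i => i.1.1 < i.1.2 ∧ i.2.1 ≠ 0 ∧ i.2.2 ≠ 0

/-- The character of a family. -/
noncomputable def chr (φ : A → T → Λ →+ K) (i : A → Idx T K) : AddChar Λ ℂ :=
  ∑ u, ((i u).2.1.compAddMonoidHom (φ u (i u).1.1) + (i u).2.2.compAddMonoidHom (φ u (i u).1.2))

omit [DecidableEq A] [Fintype T] [LinearOrder T] [Fintype K] in
theorem chr_apply (φ : A → T → Λ →+ K) (i : A → Idx T K) (l : Λ) :
    chr φ i l = ∏ u, ((i u).2.1 (φ u (i u).1.1 l) * (i u).2.2 (φ u (i u).1.2 l)) := by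
  simp only [chr, AddChar.sum_apply, AddChar.add_apply, AddChar.compAddMonoidHom_apply]

open Classical in
/-- Any four letters of every node are independent (in terms of characters). -/
def Ind4 {A T Λ K : Type*} [Fintype A] [Fintype T] [AddCommGroup Λ] [AddCommGroup K] (φ : A → T → (Λ →+ K)) : Prop :=
  ∀ χ : A → T → AddChar K ℂ, (∀ u, (univ.filter fun t => χ u t ≠ 1).card ≤ 4) →
    (∀ l, ∏ u, ∏ t, χ u t (φ u t l) = 1) → χ = 1

/-- Any four letters of every node can be moved independently. -/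
def Free4 (φ : A → T → Λ →+ K) : Prop :=
  ∀ q : A → Finset T, (∀ u, (q u).card ≤ 4) → ∀ z : A → T → K, ∃ l, ∀ u, ∀ t ∈ q u, φ u t l = z u t

omit [LinearOrder T] [Fintype K] in
theorem ind4_of_free4 {φ : A → T → Λ →+ K} (h : Free4 φ) : Ind4 φ := by
  classical
  intro χ h4 h1
  funext v s
  ext b
  obtain ⟨l, hl⟩ := h (fun u => univ.filter fun t => χ u t ≠ 1) h4 (fun u t => if u = v ∧ t = s then b else 0)
  by_cases hs : χ v s = 1
  · rw [hs]
    rfl
  have h2 := h1 l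
  rw [prod_eq_single v, prod_eq_single s] at h2
  · rw [hl v s (by simpa using hs)] at h2
    simpa using h2
  · intro t _ ht
    by_cases hc : χ v t = 1
    · rw [hc, AddChar.one_apply]
    · rw [hl v t (by simpa using hc), if_neg (fun h => ht h.2), AddChar.map_zero_eq_one]
  · simp
  · intro u _ hu
    refine prod_eq_one fun t _ => ?_
    by_cases hc : χ u t = 1
    · rw [hc, AddChar.one_apply]
    · rw [hl u t (by simpa using hc), if_neg (fun h => hu h.1), AddChar.map_zero_eq_one]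
  · simp

/-- The family of characters with two non-trivial places. -/
noncomputable def two {T K : Type*} [LinearOrder T] [AddCommGroup K] (i : Idx T K) (t : T) : AddChar K ℂ :=
  if t = i.1.1 then i.2.1 else if t = i.1.2 then i.2.2 else 1

theorem two_inj {T K : Type*} [LinearOrder T] [AddCommGroup K] {i j : Idx T K} (hi : i.1.1 < i.1.2)
    (hi1 : i.2.1 ≠ 0) (hi2 : i.2.2 ≠ 0) (hj : j.1.1 < j.1.2) (hj1 : j.2.1 ≠ 0) (hj2 : j.2.2 ≠ 0)
    (H : ∀ t, two i t = two j t) : i = j := by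
  refine pair_eq hi hi1 hi2 hj hj1 hj2 fun z => ?_
  have key : ∀ i : Idx T K, i.1.1 < i.1.2 → i.2.1 (z i.1.1) * i.2.2 (z i.1.2) =
      ∏ t ∈ ({i.1.1, i.1.2} : Finset T), two i t (z t) := by
    intro i hi
    rw [prod_pair hi.ne, two, two, if_pos rfl, if_neg hi.ne', if_pos rfl]
  have ext1 : ∀ (i : Idx T K) (s : Finset T), ({i.1.1, i.1.2} : Finset T) ⊆ s →
      ∏ t ∈ ({i.1.1, i.1.2} : Finset T), two i t (z t) = ∏ t ∈ s, two i t (z t) := by
    intro i s hs
    refine prod_subset hs fun t _ ht => ?_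
    simp only [mem_insert, mem_singleton, not_or] at ht
    rw [two, if_neg ht.1, if_neg ht.2, AddChar.one_apply]
  rw [key i hi, key j hj, ext1 i ({i.1.1, i.1.2} ∪ {j.1.1, j.1.2}) subset_union_left,
    ext1 j ({i.1.1, i.1.2} ∪ {j.1.1, j.1.2}) subset_union_right]
  exact prod_congr rfl fun t _ => by rw [H t]

omit [DecidableEq A] [Fintype K] in
theorem chr_eq_two (φ : A → T → Λ →+ K) (i : A → Idx T K) (hi : ∀ u, (i u).1.1 < (i u).1.2) (l : Λ) :
    chr φ i l = ∏ u, ∏ t, two (i u) t (φ u t l) := by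
  rw [chr_apply]
  refine prod_congr rfl fun u _ => ?_
  rw [← prod_subset (subset_univ ({(i u).1.1, (i u).1.2} : Finset T)), prod_pair (hi u).ne, two, two, if_pos rfl,
    if_neg (hi u).ne', if_pos rfl]
  intro t _ ht
  simp only [mem_insert, mem_singleton, not_or] at ht
  rw [two, if_neg ht.1, if_neg ht.2, AddChar.one_apply]

theorem chr_injOn {φ : A → T → Λ →+ K} (hφ : Ind4 φ) :
    Set.InjOn (chr φ) (Fintype.piFinset fun _ : A => idx T K) := by
  classical
  intro i hi j hj e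
  have hi' : ∀ v, (i v).1.1 < (i v).1.2 ∧ (i v).2.1 ≠ 0 ∧ (i v).2.2 ≠ 0 := fun v => by
    simpa [idx] using Fintype.mem_piFinset.1 hi v
  have hj' : ∀ v, (j v).1.1 < (j v).1.2 ∧ (j v).2.1 ≠ 0 ∧ (j v).2.2 ≠ 0 := fun v => by
    simpa [idx] using Fintype.mem_piFinset.1 hj v
  have h1 := hφ (fun u t => two (i u) t / two (j u) t) (fun u => ?_) (fun l => ?_)
  · funext v
    refine two_inj (hi' v).1 (hi' v).2.1 (hi' v).2.2 (hj' v).1 (hj' v).2.1 (hj' v).2.2 fun t => ?_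
    exact div_eq_one.1 (congrFun (congrFun h1 v) t)
  · refine (card_le_card (t := {(i u).1.1, (i u).1.2, (j u).1.1, (j u).1.2}) fun t ht => ?_).trans card_le_four
    by_contra hn
    simp only [mem_insert, mem_singleton, not_or] at hn
    rw [mem_filter] at ht
    apply ht.2
    rw [two, two, if_neg hn.1, if_neg hn.2.1, if_neg hn.2.2.1, if_neg hn.2.2.2, div_self']
  · have h2 := congrArg (fun χ : AddChar Λ ℂ => χ l) e
    simp only [chr_eq_two φ i (fun v => (hi' v).1) l, chr_eq_two φ j (fun v => (hj' v).1) l] at h2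
    simp only [AddChar.div_apply', prod_div_distrib]
    rw [h2, div_self]
    rw [← chr_eq_two φ j (fun v => (hj' v).1) l]
    exact ((chr φ j).val_isUnit l).ne_zero

end idx

section dev

variable {T K W : Type*} [Fintype T] [LinearOrder T] [AddCommGroup K] [Fintype K] [DecidableEq K]
  [Fintype W] [DecidableEq W]

/-- The part of the set `V` over the letter `b`, minus its mean. -/
noncomputable def dev (V : Finset (K × W)) (b : K) : ℝ :=
  ((V.filter fun p => p.1 = b).card : ℝ) / Fintype.card W - V.card / (Fintype.card K * Fintype.card W)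

/-- The indicator of a set. -/
noncomputable def ind (V : Finset (K × W)) (p : K × W) : ℂ := if p ∈ V then 1 else 0

open Classical in
theorem dev_eq [Nonempty W] (V : Finset (K × W)) (b : K) :
    (dev V b : ℂ) = 1 / (Fintype.card K * Fintype.card W) *
      ∑ p, ind V p * ∑ χ ∈ univ.filter (fun χ : AddChar K ℂ => χ ≠ 0), χ (b - p.1) := by
  have hk : (Fintype.card K : ℂ) ≠ 0 := by
    exact_mod_cast (Fintype.card_pos (α := K)).ne'
  have hL : (Fintype.card W : ℂ) ≠ 0 := by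
    exact_mod_cast (Fintype.card_pos (α := W)).ne'
  have h1 : ∀ a : K, ∑ χ ∈ univ.filter (fun χ : AddChar K ℂ => χ ≠ 0), χ a =
      (if a = 0 then (Fintype.card K : ℂ) else 0) - 1 := by
    intro a
    rw [← AddChar.sum_apply_eq_ite, filter_ne', ← Finset.add_sum_erase univ _ (mem_univ (0 : AddChar K ℂ))]
    simp
  have h2 : ∑ p, ind V p * ∑ χ ∈ univ.filter (fun χ : AddChar K ℂ => χ ≠ 0), χ (b - p.1) =
      Fintype.card K * ((V.filter fun p => p.1 = b).card : ℂ) - V.card := by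
    have h3 : ∀ p : K × W, ind V p * ∑ χ ∈ univ.filter (fun χ : AddChar K ℂ => χ ≠ 0), χ (b - p.1) =
        if p ∈ V then (if p.1 = b then (Fintype.card K : ℂ) else 0) - 1 else 0 := by
      intro p
      rw [h1, ind]
      by_cases hp : p ∈ V
      · rw [if_pos hp, if_pos hp, one_mul]
        by_cases hb : p.1 = b
        · rw [if_pos hb, if_pos (sub_eq_zero.2 hb.symm)]
        · rw [if_neg hb, if_neg (fun h => hb (sub_eq_zero.1 h).symm)]
      · rw [if_neg hp, if_neg hp, zero_mul]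
    rw [sum_congr rfl fun p _ => h3 p, ← sum_filter, filter_mem_eq_inter, univ_inter, sum_sub_distrib, ← sum_filter,
      sum_const, sum_const]
    simp [mul_comm]
  rw [h2, dev]
  push_cast
  field_simp

omit [DecidableEq K] in
open Classical in
theorem idx_eq : idx T K = (univ.filter fun i : T × T => i.1 < i.2) ×ˢ
    ((univ.filter fun χ : AddChar K ℂ => χ ≠ 0) ×ˢ (univ.filter fun χ : AddChar K ℂ => χ ≠ 0)) := by
  ext i
  simp [idx]

open Classical in
theorem pair_sum [Nonempty W] (V : Finset (K × W)) (β : T → K) :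
    ((∑ i ∈ univ.filter (fun i : T × T => i.1 < i.2), dev V (β i.1) * dev V (β i.2) : ℝ) : ℂ) =
      (1 / (Fintype.card K * Fintype.card W)) ^ 2 * ∑ c : (K × W) × (K × W), ind V c.1 * ind V c.2 *
        ∑ i ∈ idx T K, i.2.1 (β i.1.1 - c.1.1) * i.2.2 (β i.1.2 - c.2.1) := by
  rw [idx_eq]
  have h1 : ∀ c : (K × W) × (K × W), ind V c.1 * ind V c.2 *
      ∑ i ∈ (univ.filter fun i : T × T => i.1 < i.2) ×ˢ ((univ.filter fun χ : AddChar K ℂ => χ ≠ 0) ×ˢ
        (univ.filter fun χ : AddChar K ℂ => χ ≠ 0)), i.2.1 (β i.1.1 - c.1.1) * i.2.2 (β i.1.2 - c.2.1) =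
      ∑ i ∈ univ.filter (fun i : T × T => i.1 < i.2),
        (ind V c.1 * ∑ χ ∈ univ.filter (fun χ : AddChar K ℂ => χ ≠ 0), χ (β i.1 - c.1.1)) *
        (ind V c.2 * ∑ χ ∈ univ.filter (fun χ : AddChar K ℂ => χ ≠ 0), χ (β i.2 - c.2.1)) := by
    intro c
    rw [sum_product, mul_sum]
    refine sum_congr rfl fun i _ => ?_
    have h2 : ∑ x ∈ (univ.filter fun χ : AddChar K ℂ => χ ≠ 0) ×ˢ (univ.filter fun χ : AddChar K ℂ => χ ≠ 0),
        x.1 (β i.1 - c.1.1) * x.2 (β i.2 - c.2.1) =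
        (∑ χ ∈ univ.filter (fun χ : AddChar K ℂ => χ ≠ 0), χ (β i.1 - c.1.1)) *
        ∑ χ ∈ univ.filter (fun χ : AddChar K ℂ => χ ≠ 0), χ (β i.2 - c.2.1) := by
      rw [sum_product, sum_mul_sum]
    rw [h2]
    ring
  rw [sum_congr rfl fun c _ => h1 c, sum_comm, mul_sum]
  push_cast
  refine sum_congr rfl fun i _ => ?_
  have h3 : ∀ f g : K × W → ℂ, ∑ c : (K × W) × (K × W), f c.1 * g c.2 = (∑ p, f p) * ∑ p, g p := by
    intro f g
    rw [Fintype.sum_prod_type (fun c : (K × W) × (K × W) => f c.1 * g c.2), sum_mul_sum]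
  rw [dev_eq, dev_eq, h3 (fun p => ind V p * ∑ χ ∈ univ.filter (fun χ : AddChar K ℂ => χ ≠ 0), χ (β i.1 - p.1))
    (fun p => ind V p * ∑ χ ∈ univ.filter (fun χ : AddChar K ℂ => χ ≠ 0), χ (β i.2 - p.1))]
  ring

end dev

section core

variable {A T K W Λ₁ Λ₂ : Type*} [Fintype A] [DecidableEq A] [Fintype T] [LinearOrder T] [AddCommGroup K] [Fintype K]
  [DecidableEq K] [Fintype W] [DecidableEq W] [AddCommGroup Λ₁] [Fintype Λ₁] [AddCommGroup Λ₂] [Fintype Λ₂]

/-- The letter number `t` of the node `u`. -/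
def ltr (x : A → T → K) (φ : A → T → Λ₁ →+ K) (ψ : A → T → Λ₂ →+ K) (l₁ : Λ₁) (l₂ : Λ₂) (u : A) (t : T) : K :=
  x u t + φ u t l₁ + ψ u t l₂

omit [Fintype K] [Fintype W] [AddCommGroup K] in
theorem ind_inter (V V' : Finset (K × W)) (p : K × W) : ind (V ∩ V') p = ind V p * ind V' p := by
  simp only [ind, mem_inter]
  by_cases h : p ∈ V <;> by_cases h' : p ∈ V' <;> simp [h, h']

omit [Fintype K] [Fintype W] [AddCommGroup K] in
theorem norm_ind_le (V : Finset (K × W)) (p : K × W) : ‖ind V p‖ ≤ 1 := by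
  unfold ind
  split_ifs <;> simp

/-- The product of the indicators. -/
noncomputable def prodInd (V : Finset (K × W)) (c : A → (K × W) × (K × W)) : ℂ :=
  ∏ u, (ind V (c u).1 * ind V (c u).2)

omit [Fintype K] [Fintype W] [AddCommGroup K] [DecidableEq A] in
theorem norm_prodInd_le (V : Finset (K × W)) (c : A → (K × W) × (K × W)) : ‖prodInd V c‖ ≤ 1 := by
  unfold prodInd
  rw [norm_prod]
  refine prod_le_one (fun _ _ => norm_nonneg _) fun u _ => ?_
  rw [norm_mul]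
  exact mul_le_one₀ (norm_ind_le _ _) (norm_nonneg _) (norm_ind_le _ _)

/-- The constant factor. -/
noncomputable def coef (x : A → T → K) (c : A → (K × W) × (K × W)) (i : A → Idx T K) : ℂ :=
  ∏ u, ((i u).2.1 (x u (i u).1.1 - (c u).1.1) * (i u).2.2 (x u (i u).1.2 - (c u).2.1))

omit [DecidableEq A] [Fintype T] [LinearOrder T] [DecidableEq K] [Fintype W] [DecidableEq W] in
theorem norm_coef (x : A → T → K) (c : A → (K × W) × (K × W)) (i : A → Idx T K) : ‖coef x c i‖ = 1 := by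
  unfold coef
  rw [norm_prod]
  refine prod_eq_one fun u _ => ?_
  rw [norm_mul, AddChar.norm_apply, AddChar.norm_apply, one_mul]

omit [DecidableEq A] [Fintype T] [LinearOrder T] [Fintype K] [DecidableEq K] [Fintype W] [DecidableEq W]
  [Fintype Λ₁] [Fintype Λ₂] in
theorem split_char (x : A → T → K) (φ : A → T → Λ₁ →+ K) (ψ : A → T → Λ₂ →+ K) (l₁ : Λ₁) (l₂ : Λ₂)
    (c : A → (K × W) × (K × W)) (i : A → Idx T K) :
    ∏ u, ((i u).2.1 (ltr x φ ψ l₁ l₂ u (i u).1.1 - (c u).1.1) *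
      (i u).2.2 (ltr x φ ψ l₁ l₂ u (i u).1.2 - (c u).2.1)) =
      coef x c i * chr φ i l₁ * chr ψ i l₂ := by
  rw [chr_apply, chr_apply, coef, ← prod_mul_distrib, ← prod_mul_distrib]
  refine prod_congr rfl fun u _ => ?_
  have h1 : ∀ t b, ltr x φ ψ l₁ l₂ u t - b = (x u t - b) + φ u t l₁ + ψ u t l₂ := fun t b => by
    unfold ltr
    abel
  rw [h1, h1, AddChar.map_add_eq_mul, AddChar.map_add_eq_mul, AddChar.map_add_eq_mul, AddChar.map_add_eq_mul]
  ring

omit [Fintype Λ₁] [Fintype Λ₂] in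
open Classical in
theorem prod_pairs [Nonempty W] (x : A → T → K) (φ : A → T → Λ₁ →+ K) (ψ : A → T → Λ₂ →+ K) (l₁ : Λ₁) (l₂ : Λ₂)
    (V V' : Finset (K × W)) :
    ((∏ u, ∑ i ∈ univ.filter (fun i : T × T => i.1 < i.2),
      dev (V ∩ V') (ltr x φ ψ l₁ l₂ u i.1) * dev (V ∩ V') (ltr x φ ψ l₁ l₂ u i.2) : ℝ) : ℂ) =
      ((1 / (Fintype.card K * Fintype.card W)) ^ 2) ^ Fintype.card A *
        ∑ c : A → (K × W) × (K × W), ∑ i ∈ Fintype.piFinset (fun _ : A => idx T K),
          coef x c i * (prodInd V' c * chr φ i l₁) * (prodInd V c * chr ψ i l₂) := by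
  rw [Complex.ofReal_prod, prod_congr rfl fun u _ => pair_sum (V ∩ V') (ltr x φ ψ l₁ l₂ u), prod_mul_distrib,
    prod_const, card_univ, prod_univ_sum, Fintype.piFinset_univ]
  congr 1
  refine sum_congr rfl fun c _ => ?_
  rw [prod_mul_distrib, prod_univ_sum, mul_sum]
  refine sum_congr rfl fun i _ => ?_
  rw [split_char]
  have h1 : ∏ u, ind (V ∩ V') (c u).1 * ind (V ∩ V') (c u).2 = prodInd V c * prodInd V' c := by
    rw [prodInd, prodInd, ← prod_mul_distrib]
    refine prod_congr rfl fun u _ => ?_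
    rw [ind_inter, ind_inter]
    ring
  rw [h1]
  ring

omit [Fintype W] in
theorem sum_sq_le {Λ : Type*} [AddCommGroup Λ] [Fintype Λ] (θ : A → T → Λ →+ K) (hθ : Ind4 θ)
    (V : Λ → Finset (K × W)) (c : A → (K × W) × (K × W)) :
    ∑ i ∈ Fintype.piFinset (fun _ : A => idx T K), ‖∑ l, prodInd (V l) c * chr θ i l‖ ^ 2 ≤
      (Fintype.card Λ : ℝ) ^ 2 := by
  refine (bessel _ (chr θ) (chr_injOn hθ) fun l => prodInd (V l) c).trans ?_
  rw [sq (Fintype.card Λ : ℝ)]
  refine mul_le_mul_of_nonneg_left ?_ (Nat.cast_nonneg _)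
  refine (sum_le_sum fun l _ => pow_le_one₀ (norm_nonneg _) (norm_prodInd_le (V l) c)).trans ?_
  simp

omit [Fintype W] in
theorem sum_norm_le (x : A → T → K) (φ : A → T → Λ₁ →+ K) (ψ : A → T → Λ₂ →+ K) (hφ : Ind4 φ)
    (hψ : Ind4 ψ) (V₁ : Λ₂ → Finset (K × W)) (V₂ : Λ₁ → Finset (K × W)) (c : A → (K × W) × (K × W)) :
    ‖∑ i ∈ Fintype.piFinset (fun _ : A => idx T K), ∑ l₁, ∑ l₂,
      coef x c i * (prodInd (V₂ l₁) c * chr φ i l₁) * (prodInd (V₁ l₂) c * chr ψ i l₂)‖ ≤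
      Fintype.card Λ₁ * Fintype.card Λ₂ := by
  have h1 : ∀ i : A → Idx T K, ∑ l₁, ∑ l₂,
      coef x c i * (prodInd (V₂ l₁) c * chr φ i l₁) * (prodInd (V₁ l₂) c * chr ψ i l₂) =
      coef x c i * (∑ l₁, prodInd (V₂ l₁) c * chr φ i l₁) * ∑ l₂, prodInd (V₁ l₂) c * chr ψ i l₂ := by
    intro i
    rw [mul_assoc, sum_mul_sum, mul_sum]
    refine sum_congr rfl fun l₁ _ => ?_
    rw [mul_sum]
    refine sum_congr rfl fun l₂ _ => ?_
    ring
  rw [sum_congr rfl fun i _ => h1 i]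
  refine (norm_sum_le _ _).trans ?_
  have h2 : ∀ i : A → Idx T K, ‖coef x c i * (∑ l₁, prodInd (V₂ l₁) c * chr φ i l₁) *
      ∑ l₂, prodInd (V₁ l₂) c * chr ψ i l₂‖ =
      ‖∑ l₁, prodInd (V₂ l₁) c * chr φ i l₁‖ * ‖∑ l₂, prodInd (V₁ l₂) c * chr ψ i l₂‖ := fun i => by
    rw [norm_mul, norm_mul, norm_coef, one_mul]
  rw [sum_congr rfl fun i _ => h2 i]
  have h3 := sum_mul_sq_le_sq_mul_sq (Fintype.piFinset fun _ : A => idx T K)
    (fun i => ‖∑ l₁, prodInd (V₂ l₁) c * chr φ i l₁‖) (fun i => ‖∑ l₂, prodInd (V₁ l₂) c * chr ψ i l₂‖)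
  have h4 := mul_le_mul (sum_sq_le φ hφ V₂ c) (sum_sq_le ψ hψ V₁ c) (sum_nonneg fun _ _ => by positivity)
    (by positivity)
  have h5 := h3.trans h4
  rw [← mul_pow] at h5
  exact le_of_sq_le_sq h5 (by positivity)

open Classical in
/-- The main estimate. -/
theorem core [Nonempty W] (x : A → T → K) (φ : A → T → Λ₁ →+ K) (ψ : A → T → Λ₂ →+ K) (hφ : Ind4 φ)
    (hψ : Ind4 ψ) (V₁ : Λ₂ → Finset (K × W)) (V₂ : Λ₁ → Finset (K × W)) :
    |∑ l₁, ∑ l₂, ∏ u, ∑ i ∈ univ.filter (fun i : T × T => i.1 < i.2),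
      dev (V₁ l₂ ∩ V₂ l₁) (ltr x φ ψ l₁ l₂ u i.1) * dev (V₁ l₂ ∩ V₂ l₁) (ltr x φ ψ l₁ l₂ u i.2)| ≤
      Fintype.card Λ₁ * Fintype.card Λ₂ := by
  have hk : (Fintype.card K : ℝ) ≠ 0 := by
    exact_mod_cast (Fintype.card_pos (α := K)).ne'
  have hL : (Fintype.card W : ℝ) ≠ 0 := by
    exact_mod_cast (Fintype.card_pos (α := W)).ne'
  have h0 : ((∑ l₁, ∑ l₂, ∏ u, ∑ i ∈ univ.filter (fun i : T × T => i.1 < i.2),
      dev (V₁ l₂ ∩ V₂ l₁) (ltr x φ ψ l₁ l₂ u i.1) * dev (V₁ l₂ ∩ V₂ l₁) (ltr x φ ψ l₁ l₂ u i.2) : ℝ) : ℂ) =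
      ((1 / (Fintype.card K * Fintype.card W)) ^ 2) ^ Fintype.card A *
        ∑ c : A → (K × W) × (K × W), ∑ i ∈ Fintype.piFinset (fun _ : A => idx T K), ∑ l₁, ∑ l₂,
          coef x c i * (prodInd (V₂ l₁) c * chr φ i l₁) * (prodInd (V₁ l₂) c * chr ψ i l₂) := by
    rw [Complex.ofReal_sum, sum_congr rfl fun l₁ _ => Complex.ofReal_sum _ _,
      sum_congr rfl fun l₁ _ => sum_congr rfl fun l₂ _ => prod_pairs x φ ψ l₁ l₂ (V₁ l₂) (V₂ l₁)]
    simp only [← mul_sum]
    congr 1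
    rw [sum_congr rfl fun l₁ _ => sum_comm, sum_comm]
    refine sum_congr rfl fun c _ => ?_
    rw [sum_congr rfl fun l₁ _ => sum_comm, sum_comm]
    simp only [mul_sum]
  rw [← Real.norm_eq_abs, ← Complex.norm_real, h0, norm_mul]
  have h1 : ‖(((1 / ((Fintype.card K : ℂ) * Fintype.card W)) ^ 2) ^ Fintype.card A : ℂ)‖ =
      1 / ((Fintype.card K : ℝ) * Fintype.card W) ^ (2 * Fintype.card A) := by
    rw [← pow_mul, norm_pow, norm_div, norm_mul, Complex.norm_natCast, Complex.norm_natCast, norm_one, div_pow,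
      one_pow]
  rw [h1, div_mul_eq_mul_div, one_mul, div_le_iff₀ (by positivity)]
  refine (norm_sum_le _ _).trans ?_
  refine (sum_le_sum fun c _ => sum_norm_le x φ ψ hφ hψ V₁ V₂ c).trans ?_
  rw [sum_const, card_univ, nsmul_eq_mul, mul_comm]
  refine le_of_eq ?_
  congr 1
  rw [Fintype.card_fun, Fintype.card_prod, Fintype.card_prod]
  push_cast
  rw [pow_mul, sq]

omit [LinearOrder T] [Fintype K] [DecidableEq K] in
theorem Ind4.restrict {Λ : Type*} [AddCommGroup Λ] {φ : A → T → Λ →+ K} (h : Ind4 φ) (S : Finset A) :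
    Ind4 (fun u : S => φ u) := by
  classical
  intro χ h4 h1
  have h2 := h (fun u t => if hu : u ∈ S then χ ⟨u, hu⟩ t else 1) (fun u => ?_) (fun l => ?_)
  · funext u t
    have := congrFun (congrFun h2 u) t
    simpa using this
  · by_cases hu : u ∈ S
    · refine (card_le_card fun t ht => ?_).trans (h4 ⟨u, hu⟩)
      rw [mem_filter] at ht ⊢
      simpa [hu] using ht
    · simp [hu]
  · rw [← h1 l, ← prod_subset (subset_univ S), ← prod_coe_sort S]
    · refine prod_congr rfl fun u _ => prod_congr rfl fun t _ => ?_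
      simp
    · intro u _ hu
      simp [hu]

omit [AddCommGroup K] in
theorem abs_dev_le [Nonempty K] [Nonempty W] (V : Finset (K × W)) (b : K) : |dev V b| ≤ 1 := by
  have hk : (0 : ℝ) < Fintype.card K := by exact_mod_cast (Fintype.card_pos (α := K))
  have hL : (0 : ℝ) < Fintype.card W := by exact_mod_cast (Fintype.card_pos (α := W))
  have h1 : ((V.filter fun p => p.1 = b).card : ℝ) ≤ Fintype.card W := by
    have : (V.filter fun p => p.1 = b).card ≤ ((univ : Finset W).image fun w => (b, w)).card := by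
      refine card_le_card fun p hp => ?_
      rw [mem_filter] at hp
      rw [mem_image]
      exact ⟨p.2, mem_univ _, by rw [← hp.2]⟩
    exact_mod_cast this.trans card_image_le
  have h2 : (V.card : ℝ) ≤ Fintype.card K * Fintype.card W := by
    have : V.card ≤ Fintype.card (K × W) := card_le_univ V
    rw [Fintype.card_prod] at this
    exact_mod_cast this
  have h3 : ((V.filter fun p => p.1 = b).card : ℝ) / Fintype.card W ≤ 1 := (div_le_one hL).2 h1
  have h4 : (V.card : ℝ) / (Fintype.card K * Fintype.card W) ≤ 1 := (div_le_one (by positivity)).2 h2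
  have h5 : (0 : ℝ) ≤ ((V.filter fun p => p.1 = b).card : ℝ) / Fintype.card W := by positivity
  have h6 : (0 : ℝ) ≤ (V.card : ℝ) / (Fintype.card K * Fintype.card W) := by positivity
  rw [abs_le, dev]
  constructor <;> linarith

open Classical in
/-- The square of a sum. -/
theorem sq_sum {T : Type*} [Fintype T] [LinearOrder T] (Y : T → ℝ) :
    (∑ t, Y t) ^ 2 = ∑ t, Y t ^ 2 + 2 * ∑ i ∈ univ.filter (fun i : T × T => i.1 < i.2), Y i.1 * Y i.2 := by
  have h1 : ∀ i : T × T, Y i.1 * Y i.2 = (if i.1 = i.2 then Y i.1 * Y i.2 else 0) +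
      ((if i.1 < i.2 then Y i.1 * Y i.2 else 0) + (if i.2 < i.1 then Y i.1 * Y i.2 else 0)) := by
    intro i
    rcases lt_trichotomy i.1 i.2 with h | h | h
    · rw [if_neg h.ne, if_pos h, if_neg h.not_gt]; ring
    · rw [if_pos h, if_neg h.not_lt, if_neg h.not_gt]; ring
    · rw [if_neg h.ne', if_neg h.not_gt, if_pos h]; ring
  have h2 : ∑ i : T × T, (if i.2 < i.1 then Y i.1 * Y i.2 else 0) =
      ∑ i : T × T, if i.1 < i.2 then Y i.1 * Y i.2 else 0 := by
    rw [← Equiv.sum_comp (Equiv.prodComm T T)]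
    refine sum_congr rfl fun i _ => ?_
    simp only [Equiv.prodComm_apply, Prod.fst_swap, Prod.snd_swap, mul_comm]
  have h3 : ∑ i : T × T, (if i.1 = i.2 then Y i.1 * Y i.2 else 0) = ∑ t, Y t ^ 2 := by
    rw [Fintype.sum_prod_type]
    refine sum_congr rfl fun t _ => ?_
    rw [sum_ite_eq univ t fun t' => Y t * Y t', if_pos (mem_univ _), sq]
  rw [sq, sum_mul_sum, ← Fintype.sum_prod_type (fun i : T × T => Y i.1 * Y i.2), sum_congr rfl fun i _ => h1 i,
    sum_add_distrib, sum_add_distrib, h2, h3, sum_filter]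
  ring

open Classical in
/-- The moment. -/
theorem moment [Nonempty W] (x : A → T → K) (φ : A → T → Λ₁ →+ K) (ψ : A → T → Λ₂ →+ K) (hφ : Ind4 φ)
    (hψ : Ind4 ψ) (V₁ : Λ₂ → Finset (K × W)) (V₂ : Λ₁ → Finset (K × W)) :
    ∑ l₁, ∑ l₂, ∏ u, (∑ t, dev (V₁ l₂ ∩ V₂ l₁) (ltr x φ ψ l₁ l₂ u t)) ^ 2 ≤
      ((Fintype.card T : ℝ) + 2) ^ Fintype.card A * (Fintype.card Λ₁ * Fintype.card Λ₂) := by
  set P : Λ₁ → Λ₂ → A → ℝ := fun l₁ l₂ u => ∑ i ∈ univ.filter (fun i : T × T => i.1 < i.2),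
      dev (V₁ l₂ ∩ V₂ l₁) (ltr x φ ψ l₁ l₂ u i.1) * dev (V₁ l₂ ∩ V₂ l₁) (ltr x φ ψ l₁ l₂ u i.2) with hP
  have h1 : ∀ l₁ l₂, ∏ u, (∑ t, dev (V₁ l₂ ∩ V₂ l₁) (ltr x φ ψ l₁ l₂ u t)) ^ 2 ≤
      ∏ u, (2 * P l₁ l₂ u + Fintype.card T) := by
    intro l₁ l₂
    refine prod_le_prod (fun _ _ => by positivity) fun u _ => ?_
    rw [sq_sum, add_comm]
    refine add_le_add_right ?_ _
    refine (sum_le_sum fun t _ => (sq_le_one_iff_abs_le_one _).2 (abs_dev_le _ _)).trans ?_
    simp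
  refine (sum_le_sum fun l₁ _ => sum_le_sum fun l₂ _ => h1 l₁ l₂).trans ?_
  have h2 : ∀ S : Finset A, |∑ l₁, ∑ l₂, ∏ u ∈ S, P l₁ l₂ u| ≤ Fintype.card Λ₁ * Fintype.card Λ₂ := by
    intro S
    have := core (fun u : S => x u) (fun u : S => φ u) (fun u : S => ψ u) (hφ.restrict S) (hψ.restrict S) V₁ V₂
    have h3 : ∀ l₁ l₂, ∏ u ∈ S, P l₁ l₂ u = ∏ u : S, P l₁ l₂ u := fun l₁ l₂ => (prod_coe_sort S _).symm
    simp only [h3]
    exact this
  have h3 : ∑ l₁, ∑ l₂, ∏ u, (2 * P l₁ l₂ u + Fintype.card T) =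
      ∑ S ∈ (univ : Finset A).powerset, 2 ^ S.card * (Fintype.card T : ℝ) ^ (Fintype.card A - S.card) *
        ∑ l₁, ∑ l₂, ∏ u ∈ S, P l₁ l₂ u := by
    have h4 : ∀ l₁ l₂, ∏ u, (2 * P l₁ l₂ u + Fintype.card T) = ∑ S ∈ (univ : Finset A).powerset,
        2 ^ S.card * (Fintype.card T : ℝ) ^ (Fintype.card A - S.card) * ∏ u ∈ S, P l₁ l₂ u := by
      intro l₁ l₂
      rw [prod_add]
      refine sum_congr rfl fun S hS => ?_
      rw [prod_mul_distrib, prod_const, prod_const, card_sdiff_of_subset (mem_powerset.1 hS), card_univ]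
      ring
    rw [sum_congr rfl fun l₁ _ => sum_congr rfl fun l₂ _ => h4 l₁ l₂, sum_congr rfl fun l₁ _ => sum_comm, sum_comm]
    refine sum_congr rfl fun S _ => ?_
    rw [mul_sum]
    refine sum_congr rfl fun l₁ _ => ?_
    rw [mul_sum]
  rw [h3]
  have h5 : ∑ S ∈ (univ : Finset A).powerset, (2 : ℝ) ^ S.card * (Fintype.card T : ℝ) ^ (Fintype.card A - S.card) =
      ((Fintype.card T : ℝ) + 2) ^ Fintype.card A := by
    rw [← card_univ (α := A), sum_pow_mul_eq_add_pow, add_comm]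
  rw [← h5, sum_mul]
  refine sum_le_sum fun S _ => mul_le_mul_of_nonneg_left ((le_abs_self _).trans (h2 S)) (by positivity)

end core

section hit

variable {κ J B L Y₁ Y₂ : Type*} [Fintype κ] [DecidableEq κ] [Fintype J] [LinearOrder J] [AddCommGroup B] [Fintype B]
  [DecidableEq B] [Fintype L] [DecidableEq L] [Nonempty L] [AddCommGroup Y₁] [Fintype Y₁] [AddCommGroup Y₂]
  [Fintype Y₂]

/-- The hitting lemma, for the parts of the sets over the letters. -/
theorem hit_filter (A : κ → J → (Y₁ →+ B)) (A' : κ → J → (Y₂ →+ B)) (hA : Ind4 A) (hA' : Ind4 A')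
    (V₁ : Y₂ → Finset (B × L)) (V₂ : Y₁ → Finset (B × L)) (w0 : κ → J → B) {μ ν : ℝ} (hμ : ν ≤ μ)
    (E : Finset (Y₁ × Y₂)) (h1 : ∀ y ∈ E, μ * (Fintype.card B * Fintype.card L) ≤ (V₁ y.2 ∩ V₂ y.1).card)
    (h2 : ∀ y ∈ E, ∀ k, ∑ j, (((V₁ y.2 ∩ V₂ y.1).filter fun p => p.1 = w0 k j + A k j y.1 + A' k j y.2).card : ℝ) ≤
      Fintype.card J * (ν * Fintype.card L)) :
    (E.card : ℝ) * (Fintype.card J * (μ - ν)) ^ (2 * Fintype.card κ) ≤
      (Fintype.card J + 2) ^ Fintype.card κ * (Fintype.card Y₁ * Fintype.card Y₂) := by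
  have hk : (0 : ℝ) < Fintype.card B := by exact_mod_cast (Fintype.card_pos (α := B))
  have hL : (0 : ℝ) < Fintype.card L := by exact_mod_cast (Fintype.card_pos (α := L))
  refine le_trans ?_ (moment w0 A A' hA hA' V₁ V₂)
  rw [← Fintype.sum_prod_type (fun y : Y₁ × Y₂ => ∏ k, (∑ j, dev (V₁ y.2 ∩ V₂ y.1) (ltr w0 A A' y.1 y.2 k j)) ^ 2)]
  refine le_trans ?_ (sum_le_sum_of_subset_of_nonneg (subset_univ E) fun _ _ _ => by positivity)
  rw [← nsmul_eq_mul, ← sum_const]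
  refine sum_le_sum fun y hy => ?_
  rw [mul_comm 2 (Fintype.card κ), pow_mul', ← card_univ (α := κ), ← prod_const]
  refine prod_le_prod (fun _ _ => by positivity) fun k _ => ?_
  have hd : ∀ j, dev (V₁ y.2 ∩ V₂ y.1) (ltr w0 A A' y.1 y.2 k j) ≤
      (((V₁ y.2 ∩ V₂ y.1).filter fun p => p.1 = w0 k j + A k j y.1 + A' k j y.2).card : ℝ) /
        Fintype.card L - μ := by
    intro j
    rw [dev]
    refine sub_le_sub (le_of_eq rfl) ?_
    rw [le_div_iff₀ (by positivity)]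
    exact h1 y hy
  have h3 : ∑ j, dev (V₁ y.2 ∩ V₂ y.1) (ltr w0 A A' y.1 y.2 k j) ≤ -(Fintype.card J * (μ - ν)) := by
    refine (sum_le_sum fun j _ => hd j).trans ?_
    rw [sum_sub_distrib, ← sum_div, sum_const, card_univ, nsmul_eq_mul]
    have h4 := h2 y hy k
    have h5 : (∑ j, (((V₁ y.2 ∩ V₂ y.1).filter fun p => p.1 = w0 k j + A k j y.1 + A' k j y.2).card : ℝ)) /
        Fintype.card L ≤ Fintype.card J * ν := by
      rw [div_le_iff₀ hL]
      linarith
    linarith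
  have h6 : (0 : ℝ) ≤ Fintype.card J * (μ - ν) := mul_nonneg (Nat.cast_nonneg _) (by linarith)
  nlinarith

omit [Fintype B] [AddCommGroup B] [Nonempty L] in
theorem card_fiber (V : Finset (B × L)) (b : B) :
    (univ.filter fun l : L => (b, l) ∈ V).card = (V.filter fun p => p.1 = b).card := by
  symm
  refine card_bij' (fun p _ => p.2) (fun l _ => (b, l)) ?_ ?_ ?_ ?_
  · intro p hp
    rw [mem_filter] at hp
    rw [mem_filter, ← hp.2]
    exact ⟨mem_univ _, hp.1⟩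
  · intro l hl
    rw [mem_filter] at hl
    rw [mem_filter]
    exact ⟨hl.2, rfl⟩
  · intro p hp
    rw [mem_filter] at hp
    rw [← hp.2]
  · intro l hl
    rfl

/-- The hitting lemma, with the sum over the letters of a node. -/
theorem hit_sum (A : κ → J → (Y₁ →+ B)) (A' : κ → J → (Y₂ →+ B)) (hA : Ind4 A) (hA' : Ind4 A')
    (V₁ : Y₂ → Finset (B × L)) (V₂ : Y₁ → Finset (B × L)) (w0 : κ → J → B) {μ ν : ℝ} (hμ : ν ≤ μ)
    (E : Finset (Y₁ × Y₂)) (h1 : ∀ y ∈ E, μ * Fintype.card (B × L) ≤ (V₁ y.2 ∩ V₂ y.1).card)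
    (h2 : ∀ y ∈ E, ∀ k, ∑ j, ((univ.filter fun l : L => (w0 k j + A k j y.1 + A' k j y.2, l) ∈
      V₁ y.2 ∩ V₂ y.1).card : ℝ) ≤ Fintype.card J * (ν * Fintype.card L)) :
    (E.card : ℝ) * (Fintype.card J * (μ - ν)) ^ (2 * Fintype.card κ) ≤
      (Fintype.card J + 2) ^ Fintype.card κ * (Fintype.card Y₁ * Fintype.card Y₂) := by
  refine hit_filter A A' hA hA' V₁ V₂ w0 hμ E (fun y hy => ?_) fun y hy k => ?_
  · have := h1 y hy
    rw [Fintype.card_prod] at this
    push_cast at this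
    exact this
  · simp only [card_fiber] at h2
    exact h2 y hy k

/-- The hitting lemma. -/
theorem hit (A : κ → J → (Y₁ →+ B)) (A' : κ → J → (Y₂ →+ B)) (hA : Ind4 A) (hA' : Ind4 A')
    (V₁ : Y₂ → Finset (B × L)) (V₂ : Y₁ → Finset (B × L)) (w0 : κ → J → B) {μ ν : ℝ} (hμ : ν ≤ μ) :
    ((univ.filter fun y : Y₁ × Y₂ => μ * Fintype.card (B × L) ≤ (V₁ y.2 ∩ V₂ y.1).card ∧ ∀ k j,
      ((univ.filter fun l : L => (w0 k j + A k j y.1 + A' k j y.2, l) ∈ V₁ y.2 ∩ V₂ y.1).card : ℝ) ≤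
        ν * Fintype.card L).card : ℝ) * (Fintype.card J * (μ - ν)) ^ (2 * Fintype.card κ) ≤
      (Fintype.card J + 2) ^ Fintype.card κ * (Fintype.card Y₁ * Fintype.card Y₂) := by
  refine hit_sum A A' hA hA' V₁ V₂ w0 hμ _ (fun y hy => (mem_filter.1 hy).2.1) fun y hy k => ?_
  refine (sum_le_sum fun j _ => (mem_filter.1 hy).2.2 k j).trans ?_
  rw [sum_const, card_univ, nsmul_eq_mul]

end hit

/-- M1: the number of pairs for which all nodes of `A` see less than half of the mean. -/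
theorem count {A T W K L1 L2 : Type} [Fintype A] [DecidableEq A] [Fintype T] [LinearOrder T] [Nonempty T] [Fintype W]
    [DecidableEq W] [Nonempty W] [AddCommGroup K] [Fintype K] [DecidableEq K] [AddCommGroup L1] [Fintype L1]
    [AddCommGroup L2] [Fintype L2] (phi : A → T → L1 →+ K) (psi : A → T → L2 →+ K) (x : A → T → K)
    (hphi : ∀ q : A → Finset T, (∀ u, (q u).card ≤ 4) → ∀ z : A → T → K, ∃ l, ∀ u, ∀ t ∈ q u, phi u t l = z u t)
    (hpsi : ∀ q : A → Finset T, (∀ u, (q u).card ≤ 4) → ∀ z : A → T → K, ∃ l, ∀ u, ∀ t ∈ q u, psi u t l = z u t)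
    (V1 : L2 → Finset (K × W)) (V2 : L1 → Finset (K × W)) (r : ℝ) (hr : 0 < r) (E : Finset (L1 × L2))
    (h1 : ∀ l ∈ E, r * (Fintype.card K * Fintype.card W) ≤ (V1 l.2 ∩ V2 l.1).card)
    (h2 : ∀ l ∈ E, ∀ u, ∑ t, (((V1 l.2 ∩ V2 l.1).filter
      (fun p => p.1 = x u t + phi u t l.1 + psi u t l.2)).card : ℝ) ≤ Fintype.card T * Fintype.card W * r / 2) :
    (E.card : ℝ) ≤ (4 * (Fintype.card T + 2) / (Fintype.card T * r) ^ 2) ^ Fintype.card A *
      (Fintype.card L1 * Fintype.card L2) := by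
  have hT : (0 : ℝ) < Fintype.card T := by exact_mod_cast (Fintype.card_pos (α := T))
  have h3 := hit_filter phi psi (ind4_of_free4 hphi) (ind4_of_free4 hpsi) V1 V2 x (μ := r) (ν := r / 2)
    (by linarith) E h1 fun l hl u => (h2 l hl u).trans (le_of_eq (by ring))
  have h4 : (0 : ℝ) < (Fintype.card T * (r - r / 2)) ^ (2 * Fintype.card A) := by
    have : (0 : ℝ) < Fintype.card T * (r - r / 2) := mul_pos hT (by linarith)
    positivity
  rw [← le_div_iff₀ h4] at h3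
  refine h3.trans (le_of_eq ?_)
  rw [pow_mul, mul_div_right_comm, ← div_pow]
  congr 2
  have hr' := hr.ne'
  have hT' := hT.ne'
  field_simp
  ring

end Pool.Agent.Helper97.BT
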